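import Pool.Agent.MVS.Stmts

/-!
# Squad MVS, row BR4: invariance of the cylinder metric
-/

noncomputable section

open scoped ContDiff Topology RealInnerProductSpace
open Set

namespace Pool.Agent.MVS.H28

open Pool.Agent.RF Pool.Agent.SecondKind Pool.Agent.MinVolSphere

theorem inner_vc (x y : Fin 5 → ℝ) : ⟪vc x, vc y⟫ = ∑ i, x i * y i := by
  simp only [vc, PiLp.inner_apply]
  refine Finset.sum_congr rfl fun i _ => ?_
  simp [mul_comm]

theorem rt_vc (a b t : ℝ) (x : Fin 5 → ℝ) : Rt a b t (vc x) = vc (circ a b t x) := by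
  ext i
  fin_cases i <;>
  simp [Rt, circ, vc, eb, EuclideanSpace.single] <;> ring

theorem circ_inner (a b t : ℝ) (x y : Fin 5 → ℝ) :
    ∑ i, circ a b t x i * circ a b t y i = ∑ i, x i * y i := by
  simp only [circ, Fin.sum_univ_five]
  simp only [Matrix.cons_val_zero, Matrix.cons_val_one, Matrix.cons_val]
  have h1 := Real.cos_sq_add_sin_sq (a * t)
  have h2 := Real.cos_sq_add_sin_sq (b * t)
  linear_combination (x 0 * y 0 + x 1 * y 1) * h1 + (x 2 * y 2 + x 3 * y 3) * h2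

theorem vc_self (x : E5) : vc (fun i => x i) = x := by
  ext i; simp [vc]

theorem tang_circ {a b t : ℝ} {x v : Fin 5 → ℝ} (h : Tangent x v) :
    Tangent (circ a b t x) (circ a b t v) := by
  obtain ⟨h1, h2⟩ := h
  refine ⟨?_, ?_⟩
  · unfold OnSphere at h1 ⊢
    have := circ_inner a b t x x
    simp only [← sq] at this
    rw [this]; exact h1
  · rw [circ_inner]; exact h2

/-- decomposition of the values of the metric at a unit vector -/
theorem split {G : E5 → Bil E5} (hG : IsCyl G) {ξ : E5} (hξ : ‖ξ‖ = 1) (v w : E5) (lam mu : ℝ)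
    (hv : ⟪ξ, v⟫ = (0 : ℝ)) (hw : ⟪ξ, w⟫ = (0 : ℝ)) :
    G ξ (v + lam • ξ) (w + mu • ξ) = G ξ v w + lam * mu := by
  have hξ0 : ξ ∈ Om (Fin 5) := by
    intro h; rw [h, norm_zero] at hξ; exact zero_ne_one hξ
  have r1 := hG.radial ξ hξ0 w
  have r2 := hG.radial ξ hξ0 v
  have r3 := hG.radial ξ hξ0 ξ
  have s := hG.metric.symm ξ hξ0 v ξ
  rw [hw, zero_div] at r1
  rw [hv, zero_div] at r2
  rw [real_inner_self_eq_norm_sq, hξ] at r3
  rw [r2] at s
  simp only [map_add, map_smul, add_apply, smul_apply,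
    smul_eq_mul, r1, r3, s]
  ring

/-- **Row BR4.** -/
theorem br4 : Br4Statement := by
  intro g G a b _ hG hgG hinv t x hx v w
  -- unit vectors
  have unit : ∀ ξ : E5, ‖ξ‖ = 1 → ∀ v w : E5,
      G (Rt a b t ξ) (Rt a b t v) (Rt a b t w) = G ξ v w := by
    intro ξ hξ v w
    have tangential : ∀ v w : E5, ⟪ξ, v⟫ = (0 : ℝ) → ⟪ξ, w⟫ = (0 : ℝ) →
        G (Rt a b t ξ) (Rt a b t v) (Rt a b t w) = G ξ v w := by
      intro v w hv hw
      rw [← vc_self ξ] at hξ hv hw ⊢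
      rw [← vc_self v] at hv ⊢
      rw [← vc_self w] at hw ⊢
      rw [inner_vc] at hv hw
      have hs : OnSphere (fun i => ξ i) := by
        have h := inner_vc (fun i => ξ i) (fun i => ξ i)
        rw [real_inner_self_eq_norm_sq, hξ] at h
        unfold OnSphere
        simp only [sq] at h ⊢
        rw [← h]; norm_num
      have hTv : Tangent (fun i => ξ i) (fun i => v i) := ⟨hs, hv⟩
      have hTw : Tangent (fun i => ξ i) (fun i => w i) := ⟨hs, hw⟩
      rw [rt_vc, rt_vc, rt_vc, hgG _ _ _ (tang_circ hTv) (tang_circ hTw), hgG _ _ _ hTv hTw]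
      exact hinv t _ _ _ hTv hTw
    set lam : ℝ := ⟪ξ, v⟫ with hlam
    set mu : ℝ := ⟪ξ, w⟫ with hmu
    have hin : ∀ p q : E5, ⟪Rt a b t p, Rt a b t q⟫ = (⟪p, q⟫ : ℝ) := by
      intro p q
      rw [← vc_self p, ← vc_self q, rt_vc, rt_vc, inner_vc, inner_vc, circ_inner]
    have hv' : ⟪ξ, v - lam • ξ⟫ = (0 : ℝ) := by
      rw [inner_sub_right, inner_smul_right, real_inner_self_eq_norm_sq, hξ, ← hlam]; ring
    have hw' : ⟪ξ, w - mu • ξ⟫ = (0 : ℝ) := by
      rw [inner_sub_right, inner_smul_right, real_inner_self_eq_norm_sq, hξ, ← hmu]; ring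
    have hRn : ‖Rt a b t ξ‖ = 1 := by
      have h := hin ξ ξ
      rw [real_inner_self_eq_norm_sq, real_inner_self_eq_norm_sq, hξ] at h
      have h2 : ‖Rt a b t ξ‖ ^ 2 = 1 := by rw [h]; norm_num
      have h3 := norm_nonneg (Rt a b t ξ)
      nlinarith
    have e1 := split hG hξ (v - lam • ξ) (w - mu • ξ) lam mu hv' hw'
    have e2 := split hG hRn (Rt a b t (v - lam • ξ)) (Rt a b t (w - mu • ξ)) lam mu
      (by rw [hin]; exact hv') (by rw [hin]; exact hw')
    rw [sub_add_cancel, sub_add_cancel] at e1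
    rw [← map_smul, ← map_add, ← map_smul, ← map_add, sub_add_cancel, sub_add_cancel] at e2
    rw [e1, e2, tangential _ _ hv' hw']
  -- homogeneity
  have hxn : 0 < ‖x‖ := norm_pos_iff.mpr hx
  set r := ‖x‖ with hr
  have hξ : ‖r⁻¹ • x‖ = 1 := by
    rw [norm_smul, Real.norm_of_nonneg (inv_pos.mpr hxn).le, ← hr, inv_mul_cancel₀ hxn.ne']
  have hξ0 : r⁻¹ • x ∈ Om (Fin 5) := by
    intro h; rw [h, norm_zero] at hξ; exact zero_ne_one hξ
  have hin2 : ‖Rt a b t (r⁻¹ • x)‖ ≠ 0 := by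
    have h : ⟪Rt a b t (r⁻¹ • x), Rt a b t (r⁻¹ • x)⟫ = (⟪r⁻¹ • x, r⁻¹ • x⟫ : ℝ) := by
      rw [← vc_self (r⁻¹ • x), rt_vc, inner_vc, inner_vc, circ_inner]
    rw [real_inner_self_eq_norm_sq, real_inner_self_eq_norm_sq, hξ] at h
    intro h0
    rw [h0] at h
    norm_num at h
  have hRξ0 : Rt a b t (r⁻¹ • x) ∈ Om (Fin 5) := by
    intro h; exact hin2 (by rw [h, norm_zero])
  have ex : x = r • (r⁻¹ • x) := by
    rw [smul_smul, mul_inv_cancel₀ hxn.ne', one_smul]
  have h1 : G x = (r ^ 2)⁻¹ • G (r⁻¹ • x) := by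
    conv_lhs => rw [ex]
    exact hG.homog r hxn _ hξ0
  have h2 : G (Rt a b t x) = (r ^ 2)⁻¹ • G (Rt a b t (r⁻¹ • x)) := by
    conv_lhs => rw [ex, map_smul]
    exact hG.homog r hxn _ hRξ0
  rw [h1, h2]
  simp only [smul_apply]
  rw [unit _ hξ v w]

end Pool.Agent.MVS.H28
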