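import Pool.Agent.MVS.Stmts

/-!
# Squad MVS, row CTN: tangent comparison
-/

set_option autoImplicit false

namespace Pool.Agent.MVS.H28

theorem quad {α β δ x : ℝ} (hα : 0 ≤ α) (hδ : 0 ≤ δ) (h : β ^ 2 ≤ α * δ) :
    0 ≤ δ + 2 * x * β + x ^ 2 * α := by
  rcases hα.eq_or_lt with h0 | h0
  · rw [← h0, zero_mul] at h
    have hb : β = 0 := by
      have := sq_nonneg β
      exact pow_eq_zero_iff (two_ne_zero) |>.mp (le_antisymm h this)
    rw [hb, ← h0]
    linarith
  · by_contra hcon
    push Not at hcon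
    have h1 : α * (δ + 2 * x * β + x ^ 2 * α) < 0 := mul_neg_of_pos_of_neg h0 hcon
    nlinarith [sq_nonneg (β + x * α)]

/-- **Row CTN.** -/
theorem ctn : CtnStatement := by
  intro α β β' δ hα hβ hα0 hsq hδ hβ' hb0 t ht ht2
  have hcos : ∀ s ∈ Set.Icc (0 : ℝ) t, 0 < Real.cos s := by
    intro s hs
    apply Real.cos_pos_of_mem_Ioo
    exact ⟨by linarith [hs.1, Real.pi_pos], by linarith [hs.2]⟩
  -- the function q
  have hq : ∀ s ∈ Set.Icc (0 : ℝ) t, HasDerivAt (fun s => β s + Real.tan s * α s)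
      (β' s + (1 / Real.cos s ^ 2 * α s + Real.tan s * (2 * β s))) s := by
    intro s hs
    exact (hβ s).add ((Real.hasDerivAt_tan (hcos s hs).ne').mul (hα s))
  have hqn : ∀ s ∈ Set.Icc (0 : ℝ) t,
      0 ≤ β' s + (1 / Real.cos s ^ 2 * α s + Real.tan s * (2 * β s)) := by
    intro s hs
    have hc := hcos s hs
    have e : 1 / Real.cos s ^ 2 = 1 + Real.tan s ^ 2 := by
      rw [one_div]; exact Real.inv_one_add_tan_sq hc.ne' ▸ (by simp)
    rw [e]
    have := quad (x := Real.tan s) (hα0 s) (hδ s) (hsq s)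
    have := hβ' s
    nlinarith
  have hmono : MonotoneOn (fun s => β s + Real.tan s * α s) (Set.Icc 0 t) := by
    apply monotoneOn_of_deriv_nonneg (convex_Icc 0 t)
    · intro s hs
      exact (hq s hs).continuousAt.continuousWithinAt
    · intro s hs
      exact (hq s (interior_subset hs)).differentiableAt.differentiableWithinAt
    · intro s hs
      rw [(hq s (interior_subset hs)).deriv]
      exact hqn s (interior_subset hs)
  have hqpos : ∀ s ∈ Set.Icc (0 : ℝ) t, 0 ≤ β s + Real.tan s * α s := by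
    intro s hs
    have := hmono ⟨le_rfl, ht⟩ hs hs.1
    simp only [hb0, Real.tan_zero, zero_mul, add_zero] at this
    exact this
  have htm : t ∈ Set.Icc (0 : ℝ) t := ⟨ht, le_rfl⟩
  refine ⟨by linarith [hqpos t htm], ?_⟩
  -- the quotient
  have hr : ∀ s ∈ Set.Icc (0 : ℝ) t, HasDerivAt (fun s => α s / Real.cos s ^ 2)
      ((2 * β s * Real.cos s ^ 2 - α s * ((2 : ℕ) * Real.cos s ^ (2 - 1) * (-Real.sin s))) /
        (Real.cos s ^ 2) ^ 2) s := by
    intro s hs
    exact (hα s).div ((Real.hasDerivAt_cos s).pow 2) (pow_ne_zero 2 (hcos s hs).ne')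
  have hrn : ∀ s ∈ Set.Icc (0 : ℝ) t,
      0 ≤ (2 * β s * Real.cos s ^ 2 - α s * ((2 : ℕ) * Real.cos s ^ (2 - 1) * (-Real.sin s))) /
        (Real.cos s ^ 2) ^ 2 := by
    intro s hs
    have hc := hcos s hs
    apply div_nonneg _ (by positivity)
    have h1 := hqpos s hs
    rw [Real.tan_eq_sin_div_cos] at h1
    have h2 : 0 ≤ (β s + Real.sin s / Real.cos s * α s) * (2 * Real.cos s ^ 2) :=
      mul_nonneg h1 (by positivity)
    have h3 : (β s + Real.sin s / Real.cos s * α s) * (2 * Real.cos s ^ 2) =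
        2 * β s * Real.cos s ^ 2 - α s * ((2 : ℕ) * Real.cos s ^ (2 - 1) * (-Real.sin s)) := by
      have := hc.ne'
      push_cast
      field_simp
      ring
    rw [← h3]; exact h2
  have hmono2 : MonotoneOn (fun s => α s / Real.cos s ^ 2) (Set.Icc 0 t) := by
    apply monotoneOn_of_deriv_nonneg (convex_Icc 0 t)
    · intro s hs
      exact (hr s hs).continuousAt.continuousWithinAt
    · intro s hs
      exact (hr s (interior_subset hs)).differentiableAt.differentiableWithinAt
    · intro s hs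
      rw [(hr s (interior_subset hs)).deriv]
      exact hrn s (interior_subset hs)
  have h5 := hmono2 ⟨le_rfl, ht⟩ htm ht
  simp only [Real.cos_zero, one_pow, div_one] at h5
  rwa [le_div_iff₀ (pow_pos (hcos t htm) 2)] at h5

end Pool.Agent.MVS.H28
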